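import Mathlib
import Pool.Agent.Y325.GR.Stm

/-!
# GR-STEP: one more automorphism can be diagonalised (helper420, adapted from H89R3.Z2)
-/

set_option autoImplicit false

open ExteriorAlgebra Pool.Agent.H89R3.Gr Pool.Agent.Y325.GR

noncomputable section

namespace Pool.Agent.Y420.GR

variable {F : Type*} [Field F] (h2 : (2:F) ≠ 0)

lemma eqE {f g : E F ≃ₐ[F] E F} (h : ∀ i, f (e i) = g (e i)) : f = g := by
  have h1 : (f : E F →ₐ[F] E F) = (g : E F →ₐ[F] E F) := hom_ext' h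
  exact AlgEquiv.ext fun x => congrArg (fun l : E F →ₐ[F] E F => l x) h1

lemma dg_tau {κ : E F ≃ₐ[F] E F} (h : Dg κ) : κ * tau = tau * κ := by
  apply eqE
  intro i
  obtain ⟨c, hc⟩ := h i
  rw [mul_apply', mul_apply', tau_e, map_neg, hc, map_smul, tau_e, smul_neg]

include h2 in
/-- an automorphism inverting `h` inverts the inverse square root of `h` -/
lemma inv_root2 {A : Type*} [Ring A] [Algebra F A] {α h r : A ≃ₐ[F] A} (hαh : α * h * α⁻¹ = h⁻¹)
    (hr : r * r * h = 1) (hun : Un r)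
    (hc : ∀ c : A ≃ₐ[F] A, c * h = h * c → c * r = r * c) : α * r * α⁻¹ = r⁻¹ := by
  have hrh : r * h = h * r := (hc h rfl).symm
  have h1 : (α * r * α⁻¹) * h⁻¹ = h⁻¹ * (α * r * α⁻¹) := by
    rw [← hαh]
    calc (α * r * α⁻¹) * (α * h * α⁻¹) = α * (r * h) * α⁻¹ := by group
      _ = α * (h * r) * α⁻¹ := by rw [hrh]
      _ = (α * h * α⁻¹) * (α * r * α⁻¹) := by group
  have h1' : (α * r * α⁻¹) * h = h * (α * r * α⁻¹) := by
    have h1'' : Commute (α * r * α⁻¹) h⁻¹ := h1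
    exact (Commute.inv_right_iff.mp h1'')
  have h3 : (α * r * α⁻¹) * r = r * (α * r * α⁻¹) := hc _ h1'
  have hrr : r * r = h⁻¹ := eq_inv_of_mul_eq_one_left hr
  have h4 : (α * r * α⁻¹ * r) * (α * r * α⁻¹ * r) = 1 := by
    calc (α * r * α⁻¹ * r) * (α * r * α⁻¹ * r)
        = (α * r * α⁻¹) * (r * (α * r * α⁻¹)) * r := by group
      _ = (α * r * α⁻¹) * ((α * r * α⁻¹) * r) * r := by rw [h3]
      _ = α * (r * r) * α⁻¹ * (r * r) := by group
      _ = α * h⁻¹ * α⁻¹ * h⁻¹ := by rw [hrr]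
      _ = (α * h * α⁻¹)⁻¹ * h⁻¹ := by group
      _ = 1 := by rw [hαh]; group
  have h5 : Un (α * r * α⁻¹ * r) := Un_mul (Un_conj hun α) hun h3
  have h6 := eq_one_of_sq h2 h5 h4
  exact eq_inv_of_mul_eq_one_left h6

include h2 in
/-- conjugate an automorphism whose square commutes with the parity to one commuting with the
parity -/
theorem step0' {φ : E F ≃ₐ[F] E F} (hφτ : (φ * φ) * tau = tau * (φ * φ)) :
    ∃ k : E F ≃ₐ[F] E F, (k⁻¹ * φ * k) * tau = tau * (k⁻¹ * φ * k) ∧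
      ∀ κ : E F ≃ₐ[F] E F, κ * φ = φ * κ → κ * tau = tau * κ → κ * k = k * κ := by
  set τ : E F ≃ₐ[F] E F := tau with hτ
  have hττ : τ * τ = 1 := tau_sq
  have hτ' : τ⁻¹ = τ := inv_eq_of_mul_eq_one_left hττ
  set h : E F ≃ₐ[F] E F := φ * τ * φ⁻¹ * τ with hh
  have hha : ∀ x, h x = φ (τ (φ⁻¹ (τ x))) := fun x => rfl
  have hφφ : ∀ x, φ (φ⁻¹ x) = x := apply_inv' φ
  have heven : ∀ x, τ x = x → h x = x := by
    intro x hx
    rw [hha, hx]
    have h1 : τ (φ⁻¹ x) = φ⁻¹ x := even_map h2 hx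
    rw [h1, hφφ]
  have hodd : ∀ x, τ x = -x → h (h x - x) = h x - x := by
    intro x hx
    apply heven
    have h1 : h x - x = - φ (φ⁻¹ x + τ (φ⁻¹ x)) := by
      rw [hha, hx, map_neg, map_neg, map_neg, map_add, hφφ]; abel
    rw [h1, map_neg]
    congr 1
    apply even_map h2
    change τ (φ⁻¹ x + τ (φ⁻¹ x)) = _
    rw [map_add]
    have : τ (τ (φ⁻¹ x)) = φ⁻¹ x := tau_tau _
    rw [this, add_comm]
  have hun : Un h := by
    intro x
    refine ⟨2, ?_⟩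
    have h1 : ((lin h - 1 : Module.End F (E F)) ^ 2) x = h (h x - x) - (h x - x) := by
      rw [pow_two, Module.End.mul_apply]; simp
    rw [h1]
    apply cancel2 h2
    rw [smul_zero, smul_sub, ← map_smul]
    have h3 : (2:F) • (h x - x) = (h (x + τ x) - (x + τ x)) + (h (x - τ x) - (x - τ x)) := by
      rw [two_smul, map_add, map_sub]; abel
    have h4 : h (x + τ x) = x + τ x := by
      apply heven
      rw [map_add]
      have : τ (τ x) = x := tau_tau _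
      rw [this, add_comm]
    have h5 : h (h (x - τ x) - (x - τ x)) = h (x - τ x) - (x - τ x) := by
      apply hodd
      rw [map_sub]
      have : τ (τ x) = x := tau_tau _
      rw [this]; abel
    rw [h3, h4, sub_self, zero_add, h5, sub_self]
  obtain ⟨r, hr, hrun, hrc, -⟩ := exists_root h2 hun
  have hinv : h⁻¹ = τ * φ * τ * φ⁻¹ := by
    rw [hh, mul_inv_rev, mul_inv_rev, mul_inv_rev, hτ', inv_inv]
    group
  have e1 : τ * h * τ = h⁻¹ := by
    rw [hinv, hh]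
    calc τ * (φ * τ * φ⁻¹ * τ) * τ = τ * φ * τ * φ⁻¹ * (τ * τ) := by group
      _ = τ * φ * τ * φ⁻¹ := by rw [hττ, mul_one]
  have e2 : φ * h * φ⁻¹ = h⁻¹ := by
    rw [hinv, hh]
    calc φ * (φ * τ * φ⁻¹ * τ) * φ⁻¹ = (φ * φ * τ) * φ⁻¹ * τ * φ⁻¹ := by group
      _ = (τ * (φ * φ)) * φ⁻¹ * τ * φ⁻¹ := by rw [hφτ]
      _ = τ * φ * τ * φ⁻¹ := by group
  have f1 : τ * r * τ = r⁻¹ := inv_root h2 hττ e1 hr hrun hrc
  have f2 : φ * r * φ⁻¹ = r⁻¹ := inv_root2 h2 e2 hr hrun hrc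
  have f1' : τ * r⁻¹ * τ = r := by
    have := congrArg (fun x => x⁻¹) f1
    simp only [mul_inv_rev, inv_inv, hτ'] at this
    rw [← mul_assoc] at this
    exact this
  have f2' : φ * r⁻¹ * φ⁻¹ = r := by
    have := congrArg (fun x => x⁻¹) f2
    simp only [mul_inv_rev, inv_inv] at this
    rw [← mul_assoc] at this
    exact this
  set m : E F ≃ₐ[F] E F := r⁻¹ * τ with hm
  have hmm : m * m = 1 := by
    calc m * m = r⁻¹ * (τ * r⁻¹ * τ) := by rw [hm]; group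
      _ = 1 := by rw [f1']; group
  have hrh : r * h = r⁻¹ := by
    have : r * (r * h) = 1 := by rw [← mul_assoc]; exact hr
    exact eq_inv_of_mul_eq_one_right this
  have hφmφ : φ * m * φ⁻¹ = m := by
    have k1 : φ * τ * φ⁻¹ = h * τ := by
      rw [hh, mul_assoc (φ * τ * φ⁻¹), hττ, mul_one]
    calc φ * m * φ⁻¹ = (φ * r⁻¹ * φ⁻¹) * (φ * τ * φ⁻¹) := by rw [hm]; group
      _ = r * (h * τ) := by rw [f2', k1]
      _ = (r * h) * τ := by group
      _ = m := by rw [hrh]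
  have hφm : φ * m = m * φ := by
    calc φ * m = (φ * m * φ⁻¹) * φ := by group
      _ = m * φ := by rw [hφmφ]
  have hτm : τ * m = r := by
    rw [hm, ← mul_assoc]
    exact f1'
  obtain ⟨k, hk, hkun, hkc, -⟩ := exists_root h2 (h := τ * m) (by rw [hτm]; exact hrun)
  have hconj : m * k = k * τ := conj_root h2 hmm hττ hk hkun hkc
  refine ⟨k, ?_, ?_⟩
  · have hτk : τ = k⁻¹ * m * k := by
      rw [mul_assoc, hconj]; group
    calc k⁻¹ * φ * k * τ = k⁻¹ * φ * k * (k⁻¹ * m * k) := by rw [← hτk]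
      _ = k⁻¹ * (φ * m) * k := by group
      _ = k⁻¹ * (m * φ) * k := by rw [hφm]
      _ = (k⁻¹ * m * k) * (k⁻¹ * φ * k) := by group
      _ = τ * (k⁻¹ * φ * k) := by rw [← hτk]
  · intro κ h1 h3
    have c1 : Commute κ φ := h1
    have c2 : Commute κ τ := h3
    have c3 : Commute κ h := ((c1.mul_right c2).mul_right c1.inv_right).mul_right c2
    have c4 : Commute κ r := hrc κ c3
    have c5 : Commute κ (τ * m) := c2.mul_right (c4.inv_right.mul_right c2)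
    exact hkc κ c5

include h2 in
/-- simultaneous diagonalisation of a linear map with diagonal square and of diagonal maps -/
lemma diag' {T : (ℕ →₀ F) →ₗ[F] (ℕ →₀ F)} {s : ℕ → F} (hs : ∀ i, s i ≠ 0)
    (hT : ∀ i, T (T (Finsupp.single i 1)) = (s i * s i) • Finsupp.single i 1)
    (Ls : Set ((ℕ →₀ F) →ₗ[F] (ℕ →₀ F)))
    (hLd : ∀ L ∈ Ls, ∀ i, ∃ c : F, L (Finsupp.single i 1) = c • Finsupp.single i 1)
    (hLT : ∀ L ∈ Ls, ∀ x, L (T x) = T (L x)) :
    ∃ (b : Module.Basis ℕ F (ℕ →₀ F)) (ε : ℕ → F), (∀ i, T (b i) = ε i • b i) ∧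
      ∀ L ∈ Ls, ∀ i, ∃ c : F, L (b i) = c • b i := by
  classical
  let S : Set (ℕ →₀ F) := {v | (∃ t : F, T v = t • v) ∧ ∀ L ∈ Ls, ∃ c : F, L v = c • v}
  have hS : ⊤ ≤ Submodule.span F S := by
    rw [← (Finsupp.basisSingleOne (R := F) (ι := ℕ)).span_eq, Submodule.span_le]
    rintro _ ⟨i, rfl⟩
    rw [Finsupp.coe_basisSingleOne]
    set x : ℕ →₀ F := Finsupp.single i 1 with hx
    have h1 : x + (s i)⁻¹ • T x ∈ S := by
      refine ⟨⟨s i, ?_⟩, fun L hL => ?_⟩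
      · rw [map_add, map_smul, hT i, smul_smul, smul_add, smul_smul, mul_inv_cancel₀ (hs i),
          one_smul, ← mul_assoc, inv_mul_cancel₀ (hs i), one_mul, add_comm]
      · obtain ⟨c, hc⟩ := hLd L hL i
        refine ⟨c, ?_⟩
        rw [map_add, map_smul, hLT L hL, hc, map_smul, smul_add, smul_comm c]
    have h3 : x - (s i)⁻¹ • T x ∈ S := by
      refine ⟨⟨-s i, ?_⟩, fun L hL => ?_⟩
      · rw [map_sub, map_smul, hT i, smul_smul, smul_sub, smul_smul, neg_mul,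
          mul_inv_cancel₀ (hs i), ← mul_assoc, inv_mul_cancel₀ (hs i), one_mul, neg_smul, neg_smul,
          one_smul]
        abel
      · obtain ⟨c, hc⟩ := hLd L hL i
        refine ⟨c, ?_⟩
        rw [map_sub, map_smul, hLT L hL, hc, map_smul, smul_sub, smul_comm c]
    have h4 : x = (2:F)⁻¹ • (x + (s i)⁻¹ • T x) + (2:F)⁻¹ • (x - (s i)⁻¹ • T x) := by
      rw [← smul_add]
      have : x + (s i)⁻¹ • T x + (x - (s i)⁻¹ • T x) = (2:F) • x := by rw [two_smul]; abel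
      rw [this, smul_smul, inv_mul_cancel₀ h2, one_smul]
    have h5 : (2:F)⁻¹ • (x + (s i)⁻¹ • T x) + (2:F)⁻¹ • (x - (s i)⁻¹ • T x) ∈
        Submodule.span F S :=
      Submodule.add_mem _ (Submodule.smul_mem _ _ (Submodule.subset_span h1))
        (Submodule.smul_mem _ _ (Submodule.subset_span h3))
    rw [← h4] at h5
    exact h5
  let b3 := Module.Basis.ofSpan hS
  have hb3 : ∀ j, b3 j ∈ S := by
    intro j
    have h1 : b3 j ∈ Set.range b3 := ⟨j, rfl⟩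
    exact Module.Basis.ofSpan_subset hS h1
  let b0 : Module.Basis ℕ F (ℕ →₀ F) := Finsupp.basisSingleOne
  let eq := b3.indexEquiv b0
  let b := b3.reindex eq
  have hb : ∀ i, b i ∈ S := by
    intro i
    have : b i = b3 (eq.symm i) := b3.reindex_apply eq i
    rw [this]
    exact hb3 _
  choose ε hε using fun i => (hb i).1
  exact ⟨b, ε, hε, fun L hL i => (hb i).2 L hL⟩

/-- the linear part of a diagonal automorphism -/
lemma dg_lin {κ : E F ≃ₐ[F] E F} (h : Dg κ) : ∃ L : (ℕ →₀ F) →ₗ[F] (ℕ →₀ F),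
    ∀ x, κ (ι F x) = ι F (L x) := by
  choose c hc using h
  refine ⟨Finsupp.linearCombination F (fun i => c i • (Finsupp.single i 1 : ℕ →₀ F)), ?_⟩
  intro x
  induction x using Finsupp.induction_linear with
  | zero => simp
  | add a b ha hb => rw [map_add, map_add, map_add, map_add, ha, hb]
  | single i d =>
    have h1 : (Finsupp.single i d : ℕ →₀ F) = d • Finsupp.single i 1 := by simp
    have h3 : κ (ι F (Finsupp.single i 1)) = c i • ι F (Finsupp.single i 1) := hc i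
    rw [h1, map_smul, map_smul, map_smul, map_smul, h3]
    simp only [Finsupp.linearCombination_single, one_smul, map_smul]

include h2 in
theorem t_STEP' (hL : LinStmt F) : StepStmt F := by
  intro K φ hKd hKc hφK hsq
  have hKτ : ∀ κ ∈ K, κ * tau = tau * κ := fun κ hκ => dg_tau (hKd κ hκ)
  obtain ⟨k, hk, hkc⟩ := step0' h2 (hKτ _ hφK)
  have hKk : ∀ κ ∈ K, κ * k = k * κ := fun κ hκ => hkc κ (hKc κ hκ).symm (hKτ κ hκ)
  have hKk' : ∀ κ ∈ K, k⁻¹ * κ * k = κ := by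
    intro κ hκ
    rw [mul_assoc, hKk κ hκ]
    group
  set φ1 : E F ≃ₐ[F] E F := k⁻¹ * φ * k with hφ1
  have hφ1sq : φ1 * φ1 = φ * φ := by
    calc φ1 * φ1 = k⁻¹ * (φ * φ) * k := by rw [hφ1]; group
      _ = φ * φ := hKk' _ hφK
  have hφ1φ1 : ∀ x, φ1 (φ1 x) = (φ * φ) x := fun x =>
    congrArg (fun l : E F ≃ₐ[F] E F => l x) hφ1sq
  have hφ1K : ∀ κ ∈ K, φ1 * κ = κ * φ1 := by
    intro κ hκ
    calc φ1 * κ = k⁻¹ * φ * (k * κ) := by rw [hφ1]; group
      _ = k⁻¹ * φ * (κ * k) := by rw [hKk κ hκ]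
      _ = k⁻¹ * (φ * κ) * k := by group
      _ = k⁻¹ * (κ * φ) * k := by rw [hKc κ hκ]
      _ = (k⁻¹ * κ * k) * (k⁻¹ * φ * k) := by group
      _ = κ * φ1 := by rw [hKk' κ hκ]
  have hlin : ∀ i, ∃ m : ℕ →₀ F, φ1 (e i) - ι F m ∈ (Fil 2 : Submodule F (E F)) := fun i =>
    Fil_one_lin h2 (odd_mem_Fil h2 (tau_odd_of_comm hk i))
  choose m hm using hlin
  set T : (ℕ →₀ F) →ₗ[F] (ℕ →₀ F) := Finsupp.linearCombination F m with hT
  have hTe : ∀ i, T (Finsupp.single i 1) = m i := fun i => by simp [hT]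
  have hTφ : ∀ x : ℕ →₀ F, φ1 (ι F x) - ι F (T x) ∈ (Fil 2 : Submodule F (E F)) := by
    intro x
    induction x using Finsupp.induction_linear with
    | zero => simp
    | add a b ha hb =>
      have : φ1 (ι F (a + b)) - ι F (T (a + b)) = (φ1 (ι F a) - ι F (T a)) + (φ1 (ι F b) - ι F (T b)) := by
        simp only [map_add]; abel
      rw [this]
      exact Submodule.add_mem _ ha hb
    | single i c =>
      have h1 : (Finsupp.single i c : ℕ →₀ F) = c • Finsupp.single i 1 := by simp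
      rw [h1, map_smul, map_smul, map_smul, map_smul, ← smul_sub, hTe]
      exact Submodule.smul_mem _ _ (hm i)
  -- the square
  obtain ⟨Lq, hLq⟩ := dg_lin (hKd _ hφK)
  have hTT : ∀ x, T (T x) = Lq x := by
    intro x
    have h1 : ι F (T (T x) - Lq x) ∈ (Fil 2 : Submodule F (E F)) := by
      have h3 : ι F (T (T x) - Lq x) =
          -(φ1 (ι F (T x)) - ι F (T (T x))) - φ1 (φ1 (ι F x) - ι F (T x)) := by
        rw [map_sub, map_sub, hφ1φ1, hLq]; abel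
      rw [h3]
      exact Submodule.sub_mem _ (Submodule.neg_mem _ (hTφ _)) (comm_Fil h2 hk 2 (hTφ x))
    exact sub_eq_zero.mp (ι_Fil h1)
  have hιinj : Function.Injective (ι F : (ℕ →₀ F) →ₗ[F] E F) := fun a b hab => by
    have h1 : ι F (a - b) = 0 := by rw [map_sub, hab, sub_self]
    exact sub_eq_zero.mp ((ι_eq_zero_iff _).mp h1)
  choose s hs using hsq
  have hs0 : ∀ i, s i ≠ 0 := by
    intro i h0
    have h1 := hs i
    rw [h0, mul_zero, zero_smul] at h1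
    have h3 : (e i : E F) = 0 := (φ * φ).injective (by rw [h1, map_zero])
    have h4 : (Finsupp.single i 1 : ℕ →₀ F) = 0 := (ι_eq_zero_iff _).mp h3
    rw [Finsupp.single_eq_zero] at h4
    exact one_ne_zero h4
  have hLqs : ∀ i, Lq (Finsupp.single i 1) = (s i * s i) • Finsupp.single i 1 := by
    intro i
    apply hιinj
    rw [← hLq, map_smul]
    exact hs i
  let Ls : Set ((ℕ →₀ F) →ₗ[F] (ℕ →₀ F)) := {L | ∃ κ ∈ K, ∀ x, κ (ι F x) = ι F (L x)}
  obtain ⟨b, ε, hb, hbL⟩ := diag' h2 hs0 (fun i => by rw [hTT, hLqs]) Ls (by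
      rintro L ⟨κ, hκ, hL⟩ i
      obtain ⟨c, hc⟩ := hKd κ hκ i
      refine ⟨c, hιinj ?_⟩
      rw [← hL, map_smul]
      exact hc) (by
      rintro L ⟨κ, hκ, hL⟩ x
      have h1 : ι F (L (T x) - T (L x)) ∈ (Fil 2 : Submodule F (E F)) := by
        have h3 : κ (φ1 (ι F x)) = φ1 (ι F (L x)) := by
          rw [← hL]
          exact (congrArg (fun l : E F ≃ₐ[F] E F => l (ι F x)) (hφ1K κ hκ)).symm
        have h4 : ι F (L (T x) - T (L x)) =
            (φ1 (ι F (L x)) - ι F (T (L x))) - κ (φ1 (ι F x) - ι F (T x)) := by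
          rw [map_sub, map_sub, h3, hL]; abel
        rw [h4]
        exact Submodule.sub_mem _ (hTφ _) (comm_Fil h2 (hKτ κ hκ) 2 (hTφ x))
      exact sub_eq_zero.mp (ι_Fil h1))
  set A : (ℕ →₀ F) ≃ₗ[F] (ℕ →₀ F) := Finsupp.basisSingleOne.equiv b (Equiv.refl ℕ) with hA
  have hAe : ∀ i, A (Finsupp.single i 1) = b i := by
    intro i
    have := (Finsupp.basisSingleOne (R := F) (ι := ℕ)).equiv_apply i b (Equiv.refl ℕ)
    simpa using this
  set α : E F ≃ₐ[F] E F := mapE A with hα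
  have hατ : α * tau = tau * α := by
    apply eqE
    intro i
    rw [mul_apply', mul_apply', tau_e, map_neg, hα, e, mapE_ι, tau_ι]
  have hcα : Commute α tau := hατ
  have hαinv : α⁻¹ * tau = tau * α⁻¹ := hcα.inv_left
  have hk' : Commute φ1 tau := hk
  have hαe : ∀ i, α (e i) = ι F (b i) := fun i => by rw [hα, e, mapE_ι, hAe]
  have hαd : ∀ κ ∈ K, Dg (α⁻¹ * κ * α) := by
    intro κ hκ i
    obtain ⟨L, hL'⟩ := dg_lin (hKd κ hκ)
    obtain ⟨c, hc⟩ := hbL L ⟨κ, hκ, hL'⟩ i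
    refine ⟨c, ?_⟩
    have h1 : (α⁻¹ * κ * α) (e i) = α⁻¹ (κ (α (e i))) := rfl
    rw [h1, hαe, hL', hc, map_smul, map_smul, ← hαe, inv_apply']
  let K' : Set (E F ≃ₐ[F] E F) := {κ' | ∃ κ ∈ K, κ' = α⁻¹ * κ * α}
  have hgood : GoodK K' ε (α⁻¹ * φ1 * α) := by
    refine ⟨?_, ?_, ?_, ?_, ?_, ?_⟩
    · rintro _ ⟨κ, hκ, rfl⟩
      exact hαd κ hκ
    · rintro _ ⟨κ, hκ, rfl⟩
      calc α⁻¹ * φ1 * α * (α⁻¹ * κ * α) = α⁻¹ * (φ1 * κ) * α := by group
        _ = α⁻¹ * (κ * φ1) * α := by rw [hφ1K κ hκ]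
        _ = _ := by group
    · refine ⟨φ * φ, hφK, ?_⟩
      calc α⁻¹ * φ1 * α * (α⁻¹ * φ1 * α) = α⁻¹ * (φ1 * φ1) * α := by group
        _ = _ := by rw [hφ1sq]
    · intro i
      have h1 : (α⁻¹ * φ1 * α * (α⁻¹ * φ1 * α)) = α⁻¹ * (φ * φ) * α := by
        calc α⁻¹ * φ1 * α * (α⁻¹ * φ1 * α) = α⁻¹ * (φ1 * φ1) * α := by group
          _ = _ := by rw [hφ1sq]
      rw [h1]
      have h3 : (α⁻¹ * (φ * φ) * α) (e i) = α⁻¹ ((φ * φ) (α (e i))) := rfl
      rw [h3, hαe, hLq, ← hTT, hb, map_smul, hb, smul_smul, map_smul, map_smul, ← hαe, inv_apply']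
    · exact (hcα.inv_left.mul_left hk').mul_left hcα
    · intro i
      have h1 : (α⁻¹ * φ1 * α) (e i) = α⁻¹ (φ1 (ι F (b i))) := by
        rw [← hαe]; rfl
      have h3 : ε i • (e i : E F) = α⁻¹ (ι F (T (b i))) := by
        rw [hb, map_smul, map_smul, ← hαe, inv_apply']
      rw [h1, h3, ← map_sub]
      exact comm_Fil h2 hαinv 2 (hTφ _)
  obtain ⟨Ψ, hΨK, hΨ⟩ := hL K' ε _ hgood
  refine ⟨k * α * Ψ, ?_, ?_⟩
  · intro κ hκ
    have h1 : (k * α * Ψ)⁻¹ * κ * (k * α * Ψ) = α⁻¹ * κ * α := by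
      calc (k * α * Ψ)⁻¹ * κ * (k * α * Ψ) = Ψ⁻¹ * (α⁻¹ * (k⁻¹ * κ * k) * α * Ψ) := by group
        _ = Ψ⁻¹ * (α⁻¹ * κ * α * Ψ) := by rw [hKk' κ hκ]
        _ = Ψ⁻¹ * (Ψ * (α⁻¹ * κ * α)) := by rw [hΨK _ ⟨κ, hκ, rfl⟩]
        _ = α⁻¹ * κ * α := by group
    rw [h1]
    exact hαd κ hκ
  · intro i
    refine ⟨ε i, ?_⟩
    have h1 : (k * α * Ψ)⁻¹ * φ * (k * α * Ψ) = Ψ⁻¹ * (α⁻¹ * φ1 * α) * Ψ := by
      rw [hφ1]; group
    rw [h1]
    have h3 : (Ψ⁻¹ * (α⁻¹ * φ1 * α) * Ψ) (e i) = Ψ⁻¹ ((α⁻¹ * φ1 * α) (Ψ (e i))) := rfl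
    rw [h3, hΨ, map_smul, inv_apply']

theorem t_STEP (F : Type*) [Field F] (h2 : (2:F) ≠ 0) (hL : LinStmt F) : StepStmt F :=
  t_STEP' h2 hL

end Pool.Agent.Y420.GR
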